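import Pool.Agent.U213.BB.Defs0

/-!
# Bloch-Beilinson filtrations: definitions
-/

set_option autoImplicit false

open CategoryTheory AlgebraicGeometry

universe u v w

namespace Pool.Agent.U213.BB

open Pool.Agent.H914 Pool.Agent.H914.VarClass Pool.Agent.H914.VarClass.Obj Pool.Agent.W492.BB
  Pool.Agent.TH133

variable {k : Type u} [Field k] {𝒱 : VarClass k} {C : TheoryData.{u, v, 0} 𝒱 ℚ} {K : Type w}
  [Field K] (H : WeilTheoryData.{u, v, w} C K)

/-- The conditions 1-5 on a Bloch-Beilinson filtration for the varieties with the property `D` (in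
condition 5 for all correspondences between two varieties). If `full` is false, then the condition
on products is required only for `m + n ≤ 2`, and condition 5 only for the graded pieces `Gr^n` with
`n ≠ 2`. -/
structure IsBB (D : 𝒱.Obj → Prop) (full : Prop) (F : Filtration C) : Prop where
  /-- `F^0 CH^i(X) = CH^i(X)` -/
  zero : ∀ X : 𝒱.Obj, D X → ∀ (i : ℕ) (x : C.A X), F.Mem i 0 x ↔ C.Deg i x
  /-- `F^1 CH^i(X)` is the group of the homologically trivial classes -/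
  one : ∀ X : 𝒱.Obj, D X → ∀ (i : ℕ) (x : C.A X), F.Mem i 1 x ↔ C.Deg i x ∧ H.cl x = 0
  /-- `F^(i+1) CH^i(X) = 0` -/
  top : ∀ X : 𝒱.Obj, D X → ∀ (i : ℕ) (x : C.A X), F.Mem i (i + 1) x → x = 0
  /-- `F^m CH^i(X) · F^n CH^j(X) ⊆ F^(m+n) CH^(i+j)(X)` -/
  mul : ∀ X : 𝒱.Obj, D X → ∀ (i j m n : ℕ) (x y : C.A X), (full ∨ m + n ≤ 2) → F.Mem i m x →
    F.Mem j n y → F.Mem (i + j) (m + n) (C.mul x y)
  /-- pull-backs respect the filtrations -/
  pull : ∀ X Y : 𝒱.Obj, D X → D Y → ∀ (f : X ⟶ Y) (i n : ℕ) (y : C.A Y), F.Mem i n y →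
    F.Mem i n (C.up f y)
  /-- push-forwards respect the filtrations -/
  push : ∀ X Y : 𝒱.Obj, D X → D Y → ∀ (f : X ⟶ Y) (i j n : ℕ) (x : C.A X),
    i + Y.dim = j + X.dim → F.Mem i n x → F.Mem j n (C.down f x)
  /-- correspondences respect the filtrations, and act as zero on `Gr^n CH^i(X)` if they act as zero
  on `H^(2i-n)(X)` -/
  act : ∀ X Y : 𝒱.Obj, D X → D Y → ∀ (i j n : ℕ) (Γ : C.A (X.prod Y)),
    C.Deg (X.dim + j - i) Γ → ∀ x : C.A X, F.Mem i n x → F.Mem j n (C.act Γ x) ∧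
      ((full ∨ n ≠ 2) → Kills H Γ (2 * i - n) → F.Mem j (n + 1) (C.act Γ x))

end Pool.Agent.U213.BB
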