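import Pool.Agent.X308.S.BBDefs

/-!
# Filtrations: definitions
-/

set_option autoImplicit false

universe u v w

namespace Pool.Agent.U213.BB

open Pool.Agent.H914 Pool.Agent.W492.BB Pool.Agent.TH133

variable {k : Type u} [Field k] {𝒱 : VarClass k} {C : TheoryData.{u, v, 0} 𝒱 ℚ} {K : Type w}
  [Field K]

/-- `F^n CH^i(X) = 0` for all `i` and all varieties `X` with the property `D`. -/
def StepZero (D : 𝒱.Obj → Prop) (F : Filtration C) (n : ℕ) : Prop :=
  ∀ X : 𝒱.Obj, D X → ∀ (i : ℕ) (x : C.A X), F.Mem i n x → x = 0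

/-- The filtration `F` agrees, for the varieties `X` with the property `D`, with `G`, and with the
filtration `F^n CH^i(X) = (π_(2i-n) + ⋯ + π_0)_* CH^i(X)` (these are the classes annihilated by the
`π_j` with `j > 2 i - n`) attached to EVERY Chow-Kunneth decomposition `π` of `X`. -/
def Determines (H : WeilTheoryData.{u, v, w} C K) (D : 𝒱.Obj → Prop) (F G : Filtration C) : Prop :=
  ∀ X : 𝒱.Obj, D X → ∀ (i n : ℕ) (x : C.A X), (F.Mem i n x ↔ G.Mem i n x) ∧
    ∀ π, IsCK H X π → (F.Mem i n x ↔ C.Deg i x ∧ ∀ j : ℕ, 2 * i < j + n → C.act (π j) x = 0)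

end Pool.Agent.U213.BB
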