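import Pool.Agent.U213.BB.Defs0

/-!
# Bloch-Beilinson filtrations and the Abel-Jacobi map: definitions
-/

set_option autoImplicit false

open CategoryTheory AlgebraicGeometry

universe u v w t

namespace Pool.Agent.U213.BB

open Pool.Agent.H914 Pool.Agent.H914.VarClass Pool.Agent.H914.VarClass.Obj Pool.Agent.W492.BB
  Pool.Agent.TH133

variable {k : Type u} [Field k] {𝒱 : VarClass k} {C : TheoryData.{u, v, 0} 𝒱 ℚ} {K : Type w}
  [Field K] (H : WeilTheoryData.{u, v, w} C K)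

/-- The class `z` lies in `CH^i(X)_hom`. -/
def HomTriv {X : 𝒱.Obj} (i : ℕ) (z : C.A X) : Prop := C.Deg i z ∧ H.cl z = 0

/-- The formal properties of the Abel-Jacobi maps `CH^i(X)_hom → J^(2i-1)(X) ⊗ ℚ` (over the field of
complex numbers), which are the restrictions to `CH^i(X)_hom` of the functions `aj`: they are
additive; correspondences act on the intermediate Jacobians, compatibly with the Abel-Jacobi maps,
and this action is zero if the correspondence acts as zero on `H^(2i-1)(X)`; and the Abel-Jacobi map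
is injective on the homologically trivial divisor classes. -/
structure AbelJacobi where
  /-- the group `J^(2i-1)(X) ⊗ ℚ` -/
  J : 𝒱.Obj → ℕ → Type t
  [grp : ∀ X i, AddCommGroup (J X i)]
  /-- the Abel-Jacobi map -/
  aj : ∀ X i, C.A X → J X i
  add : ∀ (X : 𝒱.Obj) (i : ℕ) (y z : C.A X), HomTriv H i y → HomTriv H i z →
    aj X i (y + z) = aj X i y + aj X i z
  functorial : ∀ (X Y : 𝒱.Obj) (i j : ℕ) (Γ : C.A (X.prod Y)), C.Deg (X.dim + j - i) Γ →
    ∃ φ : J X i →+ J Y j, (∀ z : C.A X, HomTriv H i z → aj Y j (C.act Γ z) = φ (aj X i z)) ∧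
      (Kills H Γ (2 * i - 1) → φ = 0)
  injective : ∀ (X : 𝒱.Obj) (z : C.A X), HomTriv H 1 z → aj X 1 z = 0 → z = 0

attribute [instance] AbelJacobi.grp

/-- The conditions 1-4 on a Bloch-Beilinson filtration with `F^2 = ker AJ`, for the varieties `X`
with the property `D`. If `full` is false, then condition 4 is required only for `ν ≠ 2`. -/
structure IsBBAJ (D : 𝒱.Obj → Prop) (A : AbelJacobi.{u, v, w, t} H) (full : Prop)
    (F : Filtration C) : Prop where
  /-- `F^0 CH^i(X) = CH^i(X)` -/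
  zero : ∀ X : 𝒱.Obj, D X → ∀ (i : ℕ) (x : C.A X), F.Mem i 0 x ↔ C.Deg i x
  /-- `F^1 CH^i(X) = CH^i(X)_hom` -/
  one : ∀ X : 𝒱.Obj, D X → ∀ (i : ℕ) (x : C.A X), F.Mem i 1 x ↔ HomTriv H i x
  /-- `F^2 CH^i(X) = ker AJ` -/
  two : ∀ X : 𝒱.Obj, D X → ∀ (i : ℕ) (x : C.A X), F.Mem i 2 x ↔ HomTriv H i x ∧ A.aj X i x = 0
  /-- `F^(i+1) CH^i(X) = 0` -/
  top : ∀ X : 𝒱.Obj, D X → ∀ (i : ℕ) (x : C.A X), F.Mem i (i + 1) x → x = 0
  /-- correspondences respect the filtrations, and act as zero on `Gr^n CH^i(X)` if they act as zero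
  on `H^(2i-n)(X)` -/
  act : ∀ X Y : 𝒱.Obj, D X → D Y → ∀ (i j n : ℕ) (Γ : C.A (X.prod Y)),
    C.Deg (X.dim + j - i) Γ → ∀ x : C.A X, F.Mem i n x → F.Mem j n (C.act Γ x) ∧
      ((full ∨ n ≠ 2) → Kills H Γ (2 * i - n) → F.Mem j (n + 1) (C.act Γ x))

end Pool.Agent.U213.BB
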