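import Pool.Agent.X308.S.BBMain

/-!
# The canonical filtration on the Chow groups of the varieties of surface type

`pureFil` (folder `X308/S`) has all the properties of a Bloch-Beilinson filtration except possibly
the condition on the graded pieces for the second graded piece; this one is equivalent to Bloch's
conjecture for correspondences between surfaces.
-/

set_option autoImplicit false

open CategoryTheory AlgebraicGeometry

universe u v w

namespace Pool.Agent.U213.BB

open Pool.Agent.H914 Pool.Agent.H914.VarClass Pool.Agent.H914.VarClass.Obj Pool.Agent.W492.BB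
  Pool.Agent.W550.Corr Pool.Agent.TH133 Pool.Agent.Y148.BB Pool.Agent.X308.S

set_option linter.unusedSectionVars false

variable {k : Type u} [Field k] {𝒱 : VarClass k} {C : TheoryData.{u, v, 0} 𝒱 ℚ} {K : Type w}
  [Field K] [hC : IsChowProj C]
  {H : WeilTheoryData.{u, v, w} C K} [hH : IsWeilProj H] {S S' T X Y Z W : 𝒱.Obj}

include hC hH

variable {π : ℕ → C.A (X.prod X)} {ρ : ℕ → C.A (Y.prod Y)}

/-- The shift, unconditional outside the second graded piece. -/
lemma shift' (hS : SurfaceProperties H) {i j n : ℕ} (hB : n = 2 → BlochCorrespondences H)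
    (h : IsPure H π) (h' : IsPure H ρ)
    {Γ : C.A (X.prod Y)}
    (hΓ : Γ ∈ C.gr (X.prod Y) ((X.dim : ℤ) + j - i)) (hk : Kills H Γ (2 * i - n)) {x : C.A X}
    (hx : x ∈ ckFil C π i n) : C.act Γ x ∈ ckFil C ρ j (n + 1) := by
  have hst := h.stable hS h' hΓ hx
  rw [h.ck.mem_ckFil] at hx
  rw [h'.ck.mem_ckFil] at hst ⊢
  refine ⟨hst.1, fun m hm => ?_⟩
  by_cases hmn : 2 * j + 1 - n ≤ m
  · exact hst.2 m hmn
  have hm2 : m + n = 2 * j := by omega
  conv_lhs => rw [sum_act h.ck x]
  rw [act_map_sum, act_map_sum]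
  apply Finset.sum_eq_zero
  intro w _
  by_cases hw : 2 * i + 1 - n ≤ w
  · rw [hx.2 w hw, TheoryData.act_map_zero, TheoryData.act_map_zero]
  have h1 : Γ ∈ C.gr (X.prod Y) ((X.dim : ℤ) + (j - i)) := by
    rwa [show (X.dim : ℤ) + (j - i) = X.dim + j - i by ring]
  by_cases hwi : w + n = 2 * i
  swap
  · rw [← C.act_comp, ← C.act_comp, ← comp_assoc,
      wt_raise hS (w := w) (w' := m) (by omega) h1 (h.wt w) (h'.wt m), TheoryData.act_zero]
  -- the homologically trivial entry
  set D := C.comp (C.comp (π w) Γ) (ρ m) with hD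
  have hDcl : H.cl D = 0 := by
    apply cl_zero_of
    intro q a ha
    rw [hD, actH_comp, actH_comp, h.ck.actH_eq w q ha]
    split_ifs with hq
    · have h2 : H.act (H.cl Γ) a = 0 := by
        apply hk a
        have h3 : (2 : ℤ) * i - n = q := by omega
        change a ∈ H.gr X (2 * i - n)
        rwa [h3]
      rw [h2, TheoryData.act_map_zero]
    · rw [TheoryData.act_map_zero, TheoryData.act_map_zero]
  have hDm : D ∈ C.gr (X.prod Y) ((X.dim : ℤ) + (j - i)) :=
    comp_deg (comp_deg (h.ck.deg w) h1 rfl) (h'.ck.deg m) (by ring)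
  have hDD : C.comp (C.comp (π w) D) (ρ m) = D := by
    rw [hD, comp_assoc C (π w) (C.comp (C.comp (π w) Γ) (ρ m)), comp_assoc C (C.comp (π w) Γ),
      h'.ck.idem, ← comp_assoc C (π w) (C.comp (π w) Γ), ← comp_assoc C (π w) (π w), h.ck.idem]
  rcases Nat.lt_or_ge n 3 with hn3 | hn3
  · interval_cases n
    · -- `n = 0`
      have h2 : C.act (π w) x ∈ C.gr X i := act_deg (h.ck.deg w) hx.1 (by ring)
      have h3 : H.cl (C.act Γ (C.act (π w) x)) = 0 := by
        rw [cl_act H]
        apply hk
        have := H.cl_mem h2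
        simpa using this
      exact wt_D hS (w := m) (l := j) (by omega) (h'.wt m) (act_deg hΓ h2 (by ring)) h3
    · -- `n = 1`
      rw [← C.act_comp, ← C.act_comp, ← comp_assoc, ← hD]
      have hodd : Odd (w : ℤ) := ⟨(i : ℤ) - 1, by omega⟩
      rw [← hDD, wt_odd_zero hS (w := w) (w' := m) (by omega) hodd hDm hDcl (h.wt w) (h'.wt m),
        TheoryData.act_zero]
    · -- `n = 2`
      rw [← C.act_comp, ← C.act_comp, ← comp_assoc, ← hD, ← hDD]
      exact wt_even_zero (hB rfl) hS (s := j - i) (l := i) (w := w) (w' := m) (by omega) (by omega)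
        hDm hDcl (h.wt w) (h'.wt m) hx.1
  · rw [wt_B2 (w := w) (l := i) (by omega) (h.wt w) hx.1, TheoryData.act_map_zero,
      TheoryData.act_map_zero]

/-- Products, unconditional if the sum of the indices is at most two. -/
lemma mul' (hS : SurfaceProperties H) (h : IsPure H π)
    {i j m n : ℕ} (hmn : m + n ≤ 2) {x y : C.A X} (hx : x ∈ ckFil C π i m)
    (hy : y ∈ ckFil C π j n) :
    x * y ∈ ckFil C π (i + j) (m + n) := by
  have hxm := ((h.ck.mem_ckFil _ _ _).1 hx).1
  have hym := ((h.ck.mem_ckFil _ _ _).1 hy).1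
  have e1 : x * y = C.act (C.mulCorr y) x := by rw [C.act_mulCorr, ch_comm C]
  have e2 : x * y = C.act (C.mulCorr x) y := by rw [C.act_mulCorr]
  have d1 : C.mulCorr y ∈ C.gr (X.prod X) ((X.dim : ℤ) + (i + j : ℕ) - i) := by
    have := mulCorr_mem hym
    rwa [show (X.dim : ℤ) + (i + j : ℕ) - i = X.dim + j by push_cast; ring]
  have d2 : C.mulCorr x ∈ C.gr (X.prod X) ((X.dim : ℤ) + (i + j : ℕ) - j) := by
    have := mulCorr_mem hxm
    rwa [show (X.dim : ℤ) + (i + j : ℕ) - j = X.dim + i by push_cast; ring]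
  by_cases hn : n = 0
  · subst hn
    rw [e1]
    exact h.stable hS h d1 hx
  by_cases hm : m = 0
  · subst hm
    rw [e2, zero_add]
    exact h.stable hS h d2 hy
  have hcly : H.cl y = 0 := cl_of_mem_F1 h.ck (h.anti (by omega) hy)
  obtain rfl : n = 1 := by omega
  obtain rfl : m = 1 := by omega
  rw [e1]
  exact shift' hS (fun h => by omega) h h d1 (kills_of_cl (cl_mulCorr hcly) _) hx

/-- The filtration does not depend on the decomposition into pure pieces. -/
lemma pure_indep (hS : SurfaceProperties H) {π' : ℕ → C.A (X.prod X)} (h : IsPure H π)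
    (h' : IsPure H π') (i n : ℕ) : ckFil C π i n = ckFil C π' i n := by
  have key : ∀ {π π' : ℕ → C.A (X.prod X)}, IsPure H π → IsPure H π' →
      ckFil C π i n ≤ ckFil C π' i n := by
    intro π π' h h' x hx
    have h1 := h.stable hS h' (i := i) (j := i) (n := n) (Γ := dg C X) ?_ hx
    · rwa [act_dg] at h1
    · have := dg_mem C X
      rwa [show (X.dim : ℤ) + i - i = X.dim by ring]
  exact le_antisymm (key h h') (key h' h)

/-! ### Uniqueness from conditions on correspondences only -/

omit hC hH in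
/-- The conditions on a filtration which are used for the uniqueness. -/
structure Core (H : WeilTheoryData.{u, v, w} C K) (D : 𝒱.Obj → Prop) (F : Filtration C) :
    Prop where
  steps : HasSteps H D F
  motivic : IsMotivicOn H D F

variable {D : 𝒱.Obj → Prop} {F : Filtration C}

omit hC hH in
lemma Core.stable (hF : Core H D F) (hX : D X) (hY : D Y)
    (i j n : ℕ) (Γ : C.A (X.prod Y)) (hΓ : C.Deg ((X.dim : ℤ) + j - i) Γ) (x : C.A X)
    (hx : x ∈ F.F X i n) : C.act Γ x ∈ F.F Y j n :=
  (hF.motivic X Y hX hY i j n Γ hΓ x hx).1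

omit hC hH in
lemma Core.shift (hF : Core H D F) (hX : D X) (hY : D Y)
    (i j n : ℕ) (Γ : C.A (X.prod Y)) (hΓ : C.Deg ((X.dim : ℤ) + j - i) Γ)
    (hk : Kills H Γ (2 * i - n)) (x : C.A X) (hx : x ∈ F.F X i n) :
    C.act Γ x ∈ F.F Y j (n + 1) :=
  (hF.motivic X Y hX hY i j n Γ hΓ x hx).2 hk

omit hC hH in
lemma anti'' (F : Filtration C) (X : 𝒱.Obj) (i : ℕ) {m n : ℕ} (h : m ≤ n) :
    F.F X i n ≤ F.F X i m := by
  induction n, h using Nat.le_induction with
  | base => exact le_refl _
  | succ n _ ih => exact (F.anti X i n).trans ih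

lemma Core.proj_stable (hF : Core H D F) (hX : D X) (hπ : IsCK H X π) {i n : ℕ} (w : ℕ)
    {x : C.A X} (hx : x ∈ F.F X i n) : C.act (π w) x ∈ F.F X i n := by
  refine hF.stable hX hX i i n (π w) ?_ x hx
  have := hπ.deg w
  rwa [show (X.dim : ℤ) + i - i = X.dim by ring]

lemma Core.proj_shift (hF : Core H D F) (hX : D X) (hπ : IsCK H X π) {i n w : ℕ}
    (hw : w + n ≠ 2 * i) {x : C.A X} (hx : x ∈ F.F X i n) : C.act (π w) x ∈ F.F X i (n + 1) := by
  refine hF.shift hX hX i i n (π w) ?_ ?_ x hx
  · have := hπ.deg w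
    rwa [show (X.dim : ℤ) + i - i = X.dim by ring]
  · intro a ha
    exact hπ.act_ne w (2 * i - n) a (by omega) ha

/-- Components of too large weight of a class in `F^n` are zero. -/
lemma Core.proj_zero (hF : Core H D F) (hX : D X) (hπ : IsCK H X π) {i w : ℕ} {x : C.A X} :
    ∀ n, 2 * i < w + n → x ∈ F.F X i n → C.act (π w) x = 0 := by
  have key : ∀ m n : ℕ, 2 * i < w + n → x ∈ F.F X i n → C.act (π w) x ∈ F.F X i (n + m) := by
    intro m
    induction m with
    | zero => intro n _ hx; exact hF.proj_stable hX hπ w hx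
    | succ m ih =>
      intro n hn hx
      have h1 := hF.proj_shift hX hπ (w := w) (by omega) (ih n hn hx)
      rw [← C.act_comp, hπ.idem] at h1
      exact h1
  intro n hn hx
  apply hF.steps.top X hX i
  exact anti'' F X i (by omega) (key (i + 1) n hn hx)

/-- Components of small weight lie in `F^n`. -/
lemma Core.proj_mem (hF : Core H D F) (hX : D X) (hπ : IsCK H X π) {i w : ℕ} {x : C.A X}
    (hx : C.Deg i x) : ∀ n, w + n ≤ 2 * i → C.act (π w) x ∈ F.F X i n := by
  intro n
  induction n with
  | zero =>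
    intro _
    exact hF.proj_stable hX hπ w ((hF.steps.zero X hX i x).2 hx)
  | succ n ih =>
    intro hn
    have h1 := hF.proj_shift hX hπ (w := w) (by omega) (ih (by omega))
    rw [← C.act_comp, hπ.idem] at h1
    exact h1

/-- The filtration is the one attached to any Chow-Kunneth decomposition. -/
theorem Core.eq_ckFil (hF : Core H D F) (hX : D X) (hπ : IsCK H X π) (i n : ℕ) :
    F.F X i n = ckFil C π i n := by
  ext x
  rw [hπ.mem_ckFil]
  constructor
  · intro hx
    refine ⟨(hF.steps.zero X hX i x).1 (anti'' F X i (Nat.zero_le n) hx), fun j hj => ?_⟩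
    exact hF.proj_zero hX hπ n (by omega) hx
  · rintro ⟨hx, h⟩
    rw [sum_act hπ x]
    refine Submodule.sum_mem _ fun w _ => ?_
    by_cases hw : 2 * i + 1 - n ≤ w
    · rw [h w hw]
      exact Submodule.zero_mem _
    · exact hF.proj_mem hX hπ hx n (by omega)

/-- The Albanese kernel lies in the second step. -/
lemma Core.mem_two (hS : SurfaceProperties H)
    (hF : Core H (OfSurfaceType C) F) (hd : S.dim = 2) {α : C.A S} (hα : InAlbKer C α) :
    α ∈ F.F S 2 2 := by
  obtain ⟨π, hπ, -⟩ := hS.murre S hd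
  have hDS : OfSurfaceType C S := ofSurfaceType_of_dim (H := H) hd
  have hα2 : α ∈ C.gr S 2 := by
    have := hα.deg
    rwa [hd] at this
  -- the class is homologically trivial
  obtain ⟨q, hq⟩ := exists_hasDegree hα.deg
  -- the components
  have h1 : α = C.act (π 2) α := by
    have h2 := sum_act hπ.ck α
    rw [hd] at h2
    simp only [show 2 * 2 + 1 = 5 from rfl, Finset.sum_range_succ, Finset.sum_range_zero] at h2
    have e0 : C.act (π 0) α = 0 := by
      obtain ⟨x, hx, h4⟩ := hπ.zero
      rw [h4]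
      exact act_ext_zero_of_lt (i := 2 + 2) (C.mul_mem hx hα2) (by rw [hd]; norm_num)
    have e1 : C.act (π 1) α = 0 := by
      obtain ⟨T, a, b, hT, ha, hb, h4⟩ := hπ.one
      have h5 : C.act a α ∈ C.gr T 2 := act_deg ha hα2 (by rw [hd]; norm_num)
      rw [h4, C.act_comp, zero_of_top h5 (by rw [hT]; norm_num), TheoryData.act_map_zero]
    have e3 : C.act (π 3) α = 0 := by
      obtain ⟨T, a, b, hT, ha, hb, h4⟩ := hπ.three
      rw [h4, C.act_comp, hα.act_eq_zero T a ha, TheoryData.act_map_zero]
    have e4 : C.act (π 4) α = 0 := by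
      obtain ⟨x, hx, h4⟩ := hπ.four
      -- the degree is zero: multiply by a divisor
      by_contra hne
      rw [h4, act_ext' (q := q) (by rwa [one_mul])] at hne
      have hq : q ≠ 0 := fun h => hne (by rw [h, zero_smul])
      obtain ⟨h, hh, r, hr, hhr⟩ := hC.polarized S
      have h6 : C.act (C.ext (1 : C.A S) h) α = 0 := by
        apply hα.act_eq_zero S
        have := ext_mem' (C := C) (C.one_mem S) hh
        simpa using this
      rw [act_ext' (q := q) (by rwa [one_mul])] at h6
      have h7 : h = 0 := by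
        rw [← one_smul ℚ h, ← inv_mul_cancel₀ hq, mul_smul, h6, smul_zero]
      have hhr' : C.push (snd S S) (C.pull (fst S S) (h ^ S.dim)) = r • (1 : C.A S) := hhr
      rw [h7, hd, zero_pow (by norm_num), map_zero, map_zero] at hhr'
      have h8 : (1 : C.A S) = 0 := by
        rw [← one_smul ℚ (1 : C.A S), ← inv_mul_cancel₀ hr, mul_smul, ← hhr', smul_zero]
      have h9 : (1 : H.A S) = 0 := by rw [← map_one H.cl, h8, map_zero]
      exact hH.one_ne_zero S h9
    rw [e0, e1, e3, e4] at h2
    simpa using h2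
  have hcl : H.cl α = 0 := by
    rw [h1, cl_act H]
    exact hπ.ck.act_ne 2 (2 * 2) _ (by norm_num) (H.cl_mem hα2)
  have h3 : α ∈ F.F S 2 1 := (hF.steps.one S hDS 2 α).2 ⟨by exact_mod_cast hα2, hcl⟩
  rw [h1]
  refine hF.shift hDS hDS 2 2 1 (π 2) ?_ ?_ α h3
  · have := hπ.mem 2
    rw [hd]
    simpa using this
  · intro a ha
    exact hπ.ck.act_ne 2 (2 * 2 - 1) a (by norm_num) (by exact_mod_cast ha)

/-- A filtration with the conditions on correspondences gives Bloch's conjecture. -/
theorem Core.bloch (hS : SurfaceProperties H)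
    (hF : Core H (OfSurfaceType C) F) : BlochCorrespondences H := by
  rintro S T Z hd hd' hZ ⟨W, hW, hZW⟩ α hα
  have hDS : OfSurfaceType C S := ofSurfaceType_of_dim (H := H) hd
  have hDT : OfSurfaceType C T := ofSurfaceType_of_dim (H := H) hd'
  have h1 : C.act (Z - W) α = 0 := by
    apply hF.steps.top T hDT 2
    refine hF.shift hDS hDT 2 2 2 (Z - W) ?_ ?_ α (hF.mem_two hS hd hα)
    · have h2 := Submodule.sub_mem _ hZ (degenerate_mem (H := H) hW)
      rw [hd]
      simpa using h2
    · exact kills_of_cl (by rw [map_sub, hZW, sub_self]) _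
  rw [C.act_sub, degenerate_act (H := H) hd hW hα, sub_zero] at h1
  exact h1

end Pool.Agent.U213.BB
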