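import Pool.Agent.U213.BB.Gen
import Pool.Agent.U213.BB.Defs
import Pool.Agent.U213.BB.DefsAJ

/-!
# The canonical filtration on the Chow groups of the varieties of surface type: main theorems
-/

set_option autoImplicit false

open CategoryTheory AlgebraicGeometry

universe u v w t

namespace Pool.Agent.U213.BB

open Pool.Agent.H914 Pool.Agent.H914.VarClass Pool.Agent.H914.VarClass.Obj Pool.Agent.W492.BB
  Pool.Agent.W550.Corr Pool.Agent.TH133 Pool.Agent.Y148.BB Pool.Agent.X308.S

set_option linter.unusedSectionVars false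

variable {k : Type u} [Field k] {𝒱 : VarClass k} {C : TheoryData.{u, v, 0} 𝒱 ℚ} {K : Type w}
  [Field K] [hC : IsChowProj C]
  {H : WeilTheoryData.{u, v, w} C K} [hH : IsWeilProj H] {S S' T X Y Z W : 𝒱.Obj}

include hC hH

variable {π : ℕ → C.A (X.prod X)} {ρ : ℕ → C.A (Y.prod Y)}

/-- The conditions which hold for the canonical filtration. -/
theorem steps (hS : SurfaceProperties H) : HasSteps H (OfSurfaceType C) (pureFil H) := by
  refine ⟨?_, ?_, ?_⟩
  all_goals try simp only [Filtration.Mem]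
  · intro X hX i x
    obtain ⟨π, h, e⟩ := pureFil_eq (exists_pure (H := H) hS hX)
    rw [e, B0_of_wt h.ck h.wt i]
  · intro X hX i x
    obtain ⟨π, h, e⟩ := pureFil_eq (exists_pure (H := H) hS hX)
    rw [e]
    exact D_of_wt hS h.ck h.wt i x
  · intro X hX i x hx
    obtain ⟨π, h, e⟩ := pureFil_eq (exists_pure (H := H) hS hX)
    rw [e, B1_of_wt hS h.ck h.wt i] at hx
    exact (Submodule.mem_bot _).1 hx

lemma three (hS : SurfaceProperties H) (hX : OfSurfaceType C X) (i : ℕ) {x : C.A X}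
    (hx : (pureFil H).Mem i 3 x) : x = 0 := by
  obtain ⟨π, h, e⟩ := pureFil_eq (exists_pure (H := H) hS hX)
  simp only [Filtration.Mem] at hx
  rw [e] at hx
  exact h.three le_rfl hx

lemma pull' (hS : SurfaceProperties H) (hX : OfSurfaceType C X) (hY : OfSurfaceType C Y)
    (f : X ⟶ Y) (i n : ℕ) {y : C.A Y} (hy : (pureFil H).Mem i n y) :
    (pureFil H).Mem i n (C.up f y) := by
  obtain ⟨π, h, e⟩ := pureFil_eq (exists_pure (H := H) hS hX)
  obtain ⟨ρ, h', e'⟩ := pureFil_eq (exists_pure (H := H) hS hY)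
  simp only [Filtration.Mem] at hy ⊢
  rw [e'] at hy
  rw [e]
  change C.pull f y ∈ _
  rw [← C.act_cograph f y]
  apply h'.stable hS h _ hy
  have := cograph_mem (C := C) f
  rwa [show (Y.dim : ℤ) + i - i = Y.dim by ring]

lemma push' (hS : SurfaceProperties H) (hX : OfSurfaceType C X) (hY : OfSurfaceType C Y)
    (f : X ⟶ Y) (i j n : ℕ) {x : C.A X} (hij : i + Y.dim = j + X.dim)
    (hx : (pureFil H).Mem i n x) : (pureFil H).Mem j n (C.down f x) := by
  obtain ⟨π, h, e⟩ := pureFil_eq (exists_pure (H := H) hS hX)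
  obtain ⟨ρ, h', e'⟩ := pureFil_eq (exists_pure (H := H) hS hY)
  simp only [Filtration.Mem] at hx ⊢
  rw [e] at hx
  rw [e']
  change C.push f x ∈ _
  rw [← C.act_graph f x]
  apply h.stable hS h' _ hx
  have h1 := C.push_mem (Obj.lift (𝟙 X) f) (C.one_mem X)
  have e1 : (0 : ℤ) + 1 * (((X.prod Y).dim : ℤ) - X.dim) = X.dim + j - i := by
    rw [dim_prod]; push_cast; omega
  rwa [e1] at h1

lemma act' (hS : SurfaceProperties H) (hX : OfSurfaceType C X) (hY : OfSurfaceType C Y)
    (i j n : ℕ) (hB : n = 2 → BlochCorrespondences H) {Γ : C.A (X.prod Y)}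
    (hΓ : C.Deg (X.dim + j - i) Γ) {x : C.A X} (hx : (pureFil H).Mem i n x) :
    (pureFil H).Mem j n (C.act Γ x) ∧
      (Kills H Γ (2 * i - n) → (pureFil H).Mem j (n + 1) (C.act Γ x)) := by
  obtain ⟨π, h, e⟩ := pureFil_eq (exists_pure (H := H) hS hX)
  obtain ⟨ρ, h', e'⟩ := pureFil_eq (exists_pure (H := H) hS hY)
  simp only [Filtration.Mem] at hx ⊢
  rw [e] at hx
  rw [e', e']
  exact ⟨h.stable hS h' hΓ hx, fun hk => shift' hS hB h h' hΓ hk hx⟩

lemma act'' (hS : SurfaceProperties H) (hX : OfSurfaceType C X) (hY : OfSurfaceType C Y)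
    (i j n : ℕ) {Γ : C.A (X.prod Y)}
    (hΓ : C.Deg (X.dim + j - i) Γ) {x : C.A X} (hx : (pureFil H).Mem i n x) :
    (pureFil H).Mem j n (C.act Γ x) := by
  obtain ⟨π, h, e⟩ := pureFil_eq (exists_pure (H := H) hS hX)
  obtain ⟨ρ, h', e'⟩ := pureFil_eq (exists_pure (H := H) hS hY)
  simp only [Filtration.Mem] at hx ⊢
  rw [e] at hx
  rw [e']
  exact h.stable hS h' hΓ hx

/-- The unconditional properties, and those under Bloch's conjecture. -/
theorem isBB (hS : SurfaceProperties H) {full : Prop} (hB : full → BlochCorrespondences H) :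
    IsBB H (OfSurfaceType C) full (pureFil H) := by
  refine ⟨(steps hS).zero, (steps hS).one, (steps hS).top, ?_,
    fun X Y hX hY f i n y hy => pull' hS hX hY f i n hy,
    fun X Y hX hY f i j n x hij hx => push' hS hX hY f i j n hij hx,
    fun X Y hX hY i j n Γ hΓ x hx => ⟨act'' hS hX hY i j n hΓ hx, fun hn hk => ?_⟩⟩
  · intro X hX i j m n x y hmn hx hy
    rcases hmn with hf | hmn
    · exact (isBB_of_bloch hS (hB hf)).functorial.mul X hX i j m n x y hx hy
    · obtain ⟨π, h, e⟩ := pureFil_eq (exists_pure (H := H) hS hX)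
      simp only [Filtration.Mem] at hx hy ⊢
      rw [e] at hx hy ⊢
      exact mul' hS h hmn hx hy
  · exact (act' hS hX hY i j n (fun h2 => hn.elim hB (fun h => absurd h2 h)) hΓ hx).2 hk

/-- Any Bloch-Beilinson filtration is the canonical one. -/
theorem core_unique (hS : SurfaceProperties H) {F : Filtration C}
    (hF : Core H (OfSurfaceType C) F) (hX : OfSurfaceType C X) :
    (∀ i n, F.F X i n = (pureFil H).F X i n) ∧
    ∀ π, IsCK H X π → ∀ i n, F.F X i n = ckFil C π i n := by
  refine ⟨fun i n => ?_, fun π hπ i n => hF.eq_ckFil hX hπ i n⟩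
  obtain ⟨π, h, e⟩ := pureFil_eq (exists_pure (H := H) hS hX)
  rw [e, hF.eq_ckFil hX h.ck]

lemma core_det (hS : SurfaceProperties H) {F : Filtration C}
    (hF : Core H (OfSurfaceType C) F) : Determines H (OfSurfaceType C) F (pureFil H) := by
  intro X hX i n x
  obtain ⟨h1, h2⟩ := core_unique hS hF hX
  refine ⟨?_, fun π hπ => ?_⟩
  · simp only [Filtration.Mem]
    rw [h1]
  · simp only [Filtration.Mem]
    rw [h2 π hπ, hπ.mem_ckFil]
    refine and_congr_right fun _ => forall_congr' fun j => ?_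
    constructor
    · intro h hj
      exact h (by omega)
    · intro h hj
      exact h (by omega)

/-- **The Bloch-Beilinson filtration on varieties of surface type.** -/
theorem mainA (hS : SurfaceProperties H) :
    ∃ F₀ : Filtration C, IsBB H (OfSurfaceType C) False F₀ ∧
      StepZero (OfSurfaceType C) F₀ 3 ∧
      (IsBB H (OfSurfaceType C) True F₀ ↔ BlochCorrespondences H) ∧
      ∀ F, IsBB H (OfSurfaceType C) True F → IsBB H (OfSurfaceType C) True F₀ ∧
        Determines H (OfSurfaceType C) F F₀ := by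
  have hcore : ∀ F : Filtration C, IsBB H (OfSurfaceType C) True F →
      Core H (OfSurfaceType C) F := fun F hF =>
    ⟨⟨hF.zero, hF.one, hF.top⟩, fun X Y hX hY i j n Γ hΓ x hx =>
      ⟨(hF.act X Y hX hY i j n Γ hΓ x hx).1, (hF.act X Y hX hY i j n Γ hΓ x hx).2 (Or.inl trivial)⟩⟩
  refine ⟨pureFil H, isBB hS False.elim, fun X hX i x hx => three hS hX i hx,
    ⟨fun h => (hcore _ h).bloch hS, fun h => isBB hS fun _ => h⟩,
    fun F hF => ⟨isBB hS fun _ => (hcore _ hF).bloch hS, core_det hS (hcore _ hF)⟩⟩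

/-! ### The Abel-Jacobi map -/

variable {A : AbelJacobi.{u, v, w, t} H}

/-- The class is homologically trivial and lies in the kernel of the Abel-Jacobi map. -/
def InKer (A : AbelJacobi.{u, v, w, t} H) {X : 𝒱.Obj} (i : ℕ) (x : C.A X) : Prop :=
  HomTriv H i x ∧ A.aj X i x = 0

lemma homTriv_act {i j : ℕ} {Γ : C.A (X.prod Y)}
    (hΓ : C.Deg ((X.dim : ℤ) + j - i) Γ) {z : C.A X} (hz : HomTriv H i z) :
    HomTriv H j (C.act Γ z) := by
  refine ⟨act_deg hΓ hz.1 (by ring), ?_⟩
  rw [cl_act H, hz.2, TheoryData.act_map_zero]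

lemma inKer_act {i j : ℕ} {Γ : C.A (X.prod Y)}
    (hΓ : C.Deg ((X.dim : ℤ) + j - i) Γ) {z : C.A X} (hz : InKer A i z) :
    InKer A j (C.act Γ z) := by
  obtain ⟨h, h0⟩ := hz
  obtain ⟨φ, h1, -⟩ := A.functorial X Y i j Γ hΓ
  refine ⟨homTriv_act hΓ h, ?_⟩
  rw [h1 z h, h0, map_zero]

lemma inKer_one {z : C.A X} (hz : InKer A 1 z) : z = 0 := A.injective X z hz.1 hz.2

lemma inKer_of_kills {i j : ℕ} {Γ : C.A (X.prod Y)}
    (hΓ : C.Deg ((X.dim : ℤ) + j - i) Γ) (hk : Kills H Γ (2 * i - 1)) {z : C.A X}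
    (hz : HomTriv H i z) : InKer A j (C.act Γ z) := by
  obtain ⟨φ, h1, h2⟩ := A.functorial X Y i j Γ hΓ
  refine ⟨homTriv_act hΓ hz, ?_⟩
  rw [h1 z hz, h2 hk, AddMonoidHom.zero_apply]

lemma inKer_zero (A : AbelJacobi.{u, v, w, t} H) (X : 𝒱.Obj) (i : ℕ) : InKer A i (0 : C.A X) := by
  have h0 : HomTriv H i (0 : C.A X) := ⟨Submodule.zero_mem _, map_zero _⟩
  refine ⟨h0, ?_⟩
  have h1 := A.add X i 0 0 h0 h0
  rw [add_zero] at h1
  exact left_eq_add.1 h1

lemma inKer_add {i : ℕ} {x y : C.A X} (hx : InKer A i x) (hy : InKer A i y) :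
    InKer A i (x + y) := by
  obtain ⟨h1, h2⟩ := hx
  obtain ⟨h3, h4⟩ := hy
  refine ⟨⟨Submodule.add_mem _ h1.1 h3.1, by rw [map_add, h1.2, h3.2, add_zero]⟩, ?_⟩
  rw [A.add X i x y h1 h3, h2, h4, add_zero]

/-- Correspondences of weight `2 l - 1` act as zero on the kernel of the Abel-Jacobi map. -/
lemma wt_AJ {w : ℤ} {l : ℕ} (hwl : w = 2 * l - 1) {x : C.A (X.prod X)}
    (hx : x ∈ wt H X w) {z : C.A X} (hz : InKer A l z) : C.act x z = 0 := by
  have h1 : wt H X w ≤ LinearMap.ker (LinearMap.flip (actB C) z) := by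
    unfold wt
    rw [Submodule.span_le]
    rintro _ ⟨S, π, i, n, a, b, hπ, hw, ha, hb, rfl⟩
    rw [SetLike.mem_coe, LinearMap.mem_ker, LinearMap.flip_apply, actB_apply, C.act_comp,
      C.act_comp]
    have hd := hπ.dim
    have hzd : z ∈ C.gr X l := hz.1.1
    have hy : C.act a z ∈ C.gr S (l - n) := act_deg ha hzd (by ring)
    have h2 : C.act (π i) (C.act a z) = 0 := by
      rcases lt_trichotomy ((l : ℤ) - n) 1 with h | h | h
      · omega
      · have h3 : InKer A 1 (C.act a z) := by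
          apply inKer_act (i := l) _ hz
          rwa [show (X.dim : ℤ) + (1 : ℕ) - l = X.dim - n by push_cast; omega]
        rw [inKer_one h3, TheoryData.act_map_zero]
      · by_cases h2 : (l : ℤ) - n = 2
        · obtain rfl : i = 3 := by omega
          obtain ⟨T, α, β, hT, hα, hβ, h4⟩ := hπ.three
          have h3 : InKer A 1 (C.act α (C.act a z)) := by
            apply inKer_act (i := 2)
            · rw [hd]
              have e : ((2 : ℕ) : ℤ) + (1 : ℕ) - (2 : ℕ) = 1 := by norm_num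
              rwa [e]
            · apply inKer_act (i := l) _ hz
              rwa [show (X.dim : ℤ) + (2 : ℕ) - l = X.dim - n by push_cast; omega]
          rw [h4, C.act_comp, inKer_one h3, TheoryData.act_map_zero]
        · rw [zero_of_top hy (by rw [hd]; omega), TheoryData.act_map_zero]
    rw [h2, TheoryData.act_map_zero]
  have h2 := h1 hx
  rw [LinearMap.mem_ker, LinearMap.flip_apply, actB_apply] at h2
  exact h2

/-- The second step of the filtration is the kernel of the Abel-Jacobi map. -/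
theorem two_iff (hS : SurfaceProperties H) (h : IsPure H π) (i : ℕ) (x : C.A X) :
    x ∈ ckFil C π i 2 ↔ InKer A i x := by
  constructor
  · intro hx
    have hx1 := h.anti (m := 1) (by norm_num) hx
    have hh : HomTriv H i x := (D_of_wt hS h.ck h.wt i x).1 hx1
    rcases Nat.eq_zero_or_pos i with rfl | hi
    · have : x = 0 := by
        have h1 := h.anti (m := 0 + 1) (by norm_num) hx
        rw [B1_of_wt hS h.ck h.wt 0] at h1
        exact (Submodule.mem_bot _).1 h1
      rw [this]
      exact inKer_zero A X 0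
    rw [h.ck.mem_ckFil] at hx
    -- `x = ∑ π w x`, and the components `w ≠ 2 i - 1` lie in the kernel
    have key : ∀ s : Finset ℕ, InKer A i (∑ w ∈ s, C.act (π w) x) := by
      intro s
      induction s using Finset.induction_on with
      | empty => rw [Finset.sum_empty]; exact inKer_zero A X i
      | insert w s hw ih =>
        rw [Finset.sum_insert hw]
        refine inKer_add ?_ ih
        by_cases hw1 : w = 2 * i - 1
        · rw [hx.2 w (by omega)]
          exact inKer_zero A X i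
        · apply inKer_of_kills (i := i) _ _ hh
          · have := h.ck.deg w
            rwa [show (X.dim : ℤ) + i - i = X.dim by ring]
          · intro a ha
            exact h.ck.act_ne w (2 * i - 1) a (by omega) ha
    rw [sum_act h.ck x]
    exact key _
  · intro hx
    have hh := hx.1
    rw [h.ck.mem_ckFil]
    refine ⟨hh.1, fun j hj => ?_⟩
    have h1 := (D_of_wt hS h.ck h.wt i x).2 hh
    rw [h.ck.mem_ckFil] at h1
    by_cases hj2 : 2 * i + 1 - 1 ≤ j
    · exact h1.2 j hj2
    · exact wt_AJ (l := i) (w := j) (by omega) (h.wt j) hx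

/-- **The Bloch-Beilinson filtration with `F^2 = ker AJ` on varieties of surface type.** -/
theorem mainB (hS : SurfaceProperties H) (A : AbelJacobi.{u, v, w, t} H) :
    ∃ F₀ : Filtration C, IsBBAJ H (OfSurfaceType C) A False F₀ ∧
      StepZero (OfSurfaceType C) F₀ 3 ∧
      (IsBBAJ H (OfSurfaceType C) A True F₀ ↔ BlochCorrespondences H) ∧
      ∀ F, IsBBAJ H (OfSurfaceType C) A True F → IsBBAJ H (OfSurfaceType C) A True F₀ ∧
        Determines H (OfSurfaceType C) F F₀ := by
  have hcore : ∀ F : Filtration C, IsBBAJ H (OfSurfaceType C) A True F →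
      Core H (OfSurfaceType C) F := fun F hF =>
    ⟨⟨hF.zero, hF.one, hF.top⟩, fun X Y hX hY i j n Γ hΓ x hx =>
      ⟨(hF.act X Y hX hY i j n Γ hΓ x hx).1, (hF.act X Y hX hY i j n Γ hΓ x hx).2 (Or.inl trivial)⟩⟩
  have htwo : ∀ X : 𝒱.Obj, OfSurfaceType C X → ∀ (i : ℕ) (x : C.A X),
      (pureFil H).Mem i 2 x ↔ InKer A i x := by
    intro X hX i x
    obtain ⟨π, h, e⟩ := pureFil_eq (exists_pure (H := H) hS hX)
    simp only [Filtration.Mem]
    rw [e]
    exact two_iff hS h i x
  have hmain : ∀ full : Prop, (full → BlochCorrespondences H) →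
      IsBBAJ H (OfSurfaceType C) A full (pureFil H) := by
    intro full hB
    exact ⟨(steps hS).zero, (steps hS).one, htwo, (steps hS).top,
      fun X Y hX hY i j n Γ hΓ x hx => ⟨act'' hS hX hY i j n hΓ hx, fun hn hk =>
        (act' hS hX hY i j n (fun h2 => hn.elim hB (fun h => absurd h2 h)) hΓ hx).2 hk⟩⟩
  refine ⟨pureFil H, hmain False False.elim, fun X hX i x hx => three hS hX i hx,
    ⟨fun h => (hcore _ h).bloch hS, fun h => hmain True fun _ => h⟩,
    fun F hF => ⟨hmain True fun _ => (hcore _ hF).bloch hS, core_det hS (hcore _ hF)⟩⟩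

end Pool.Agent.U213.BB
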